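import Pool.Agent.W602.RG.Stm

/-!
# Project RG (MP_c69980_ag): an injective sequence is transcendental
-/

set_option autoImplicit false

open Polynomial

namespace Pool.Agent.W32.RG.GTR

open Pool.Agent.W602.RG

theorem aeval_mk {k : Type} [Field k] (θ : ℕ → k) (p : k[X]) :
    aeval (Om.mk θ) p = Om.mk (fun n => p.eval (θ n)) := by
  induction p using Polynomial.induction_on with
  | C a =>
    rw [aeval_C]
    simp only [eval_C]
    rfl
  | add p q hp hq =>
    rw [map_add, hp, hq, Om.mk_add]
    simp only [eval_add]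
  | monomial n a ih =>
    rw [pow_succ, ← mul_assoc, map_mul, ih, aeval_X, Om.mk_mul]
    simp only [eval_mul, eval_X]

theorem main : Pool.Agent.W602.RG.S_GTR := by
  intro k _ _ θ hθ halg
  obtain ⟨p, hp0, hp⟩ := halg
  rw [aeval_mk, ← Om.mk_zero, Om.mk_eq] at hp
  have hfin : {n : ℕ | p.eval (θ n) = 0}.Finite := by
    have h1 : {n : ℕ | p.eval (θ n) = 0} ⊆ θ ⁻¹' (p.rootSet k) := by
      intro n hn
      simp only [Set.mem_preimage, mem_rootSet, Set.mem_setOf_eq] at hn ⊢
      refine ⟨hp0, ?_⟩
      simpa [aeval_def] using hn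
    exact ((rootSet_finite p k).preimage (hθ.injOn)).subset h1
  exact hfin.notMem_hyperfilter hp

end Pool.Agent.W32.RG.GTR
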